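import Mathlib

/-!
# MP_293fae_al: Pythagoras numbers of normal local domains containing a square root of `-1`

Let `R` be a Noetherian normal local domain of dimension at least two (for instance a regular local
ring of dimension two) of characteristic different from two which contains a square root of `-1`, and
let `K` be its field of fractions.  Then `p(K) = 2`, while `p(R) = 2` if `2` is a unit of `R` and
`p(R) = 3` if it is not.
-/

set_option autoImplicit false

open IsLocalRing

namespace Pool.Agent.Results.MP_293fae_al.ContainingI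

/-- `x` is a sum of `n` squares in `A`. -/
def SumOf (A : Type*) [CommRing A] (n : ℕ) (x : A) : Prop := ∃ f : Fin n → A, x = ∑ i, f i ^ 2

/-- `n` is the Pythagoras number of `A`: the least `n ≥ 1` such that every finite sum of squares of
elements of `A` is a sum of `n` squares. -/
def IsPythagorasNumber (A : Type*) [CommRing A] (n : ℕ) : Prop :=
  IsLeast {n : ℕ | 1 ≤ n ∧ ∀ (m : ℕ) (x : A), SumOf A m x → SumOf A n x} n

section general
variable {A : Type*} [CommRing A]

lemma sumOf_two (a b : A) : SumOf A 2 (a ^ 2 + b ^ 2) := ⟨![a, b], by simp [Fin.sum_univ_two]⟩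

lemma sumOf_three (a b c : A) : SumOf A 3 (a ^ 2 + b ^ 2 + c ^ 2) :=
  ⟨![a, b, c], by simp [Fin.sum_univ_three]⟩

/-- a sum of squares has the form `s² + 2t` -/
lemma form (m : ℕ) (x : A) (h : SumOf A m x) : ∃ s t : A, x = s ^ 2 + 2 * t := by
  obtain ⟨f, rfl⟩ := h
  induction m with
  | zero => exact ⟨0, 0, by simp⟩
  | succ m ih =>
    obtain ⟨s, t, hst⟩ := ih (fun i => f i.castSucc)
    refine ⟨s + f (Fin.last m), t - s * f (Fin.last m), ?_⟩
    rw [Fin.sum_univ_castSucc, hst]
    ring

/-- with a square root of `-1` every sum of squares is a sum of three squares -/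
lemma three {j : A} (hj : j ^ 2 = -1) (m : ℕ) (x : A) (h : SumOf A m x) : SumOf A 3 x := by
  obtain ⟨s, t, rfl⟩ := form m x h
  have : s ^ 2 + 2 * t = (s + 1) ^ 2 + (t - s) ^ 2 + (j * (t - s - 1)) ^ 2 := by
    rw [mul_pow, hj]; ring
  rw [this]
  exact sumOf_three _ _ _

/-- with a square root of `-1` and `2` invertible everything is a sum of two squares -/
lemma two {j : A} (hj : j ^ 2 = -1) (h2 : IsUnit (2 : A)) (x : A) : SumOf A 2 x := by
  obtain ⟨u, hu⟩ := h2.exists_left_inv
  have : x = (u * (x + 1)) ^ 2 + (j * (u * (x - 1))) ^ 2 := by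
    rw [mul_pow j, hj]
    have h4 : u ^ 2 * 4 = 1 := by
      have : (u * 2) ^ 2 = 1 := by rw [hu]; simp
      linear_combination this
    linear_combination (-x) * h4
  rw [this]
  exact sumOf_two _ _

lemma isPyth_two (hall : ∀ x : A, SumOf A 2 x) (hns : ∃ x : A, ∀ y : A, x ≠ y ^ 2) :
    IsPythagorasNumber A 2 := by
  refine ⟨⟨by norm_num, fun m x _ => hall x⟩, ?_⟩
  rintro n ⟨hn, h⟩
  by_contra hlt
  have h1 : n = 1 := by omega
  subst h1
  obtain ⟨x, hx⟩ := hns
  obtain ⟨f, hf⟩ := h 2 x (hall x)
  exact hx (f 0) (by rw [hf]; simp)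

end general

section local_ring
variable {R : Type*} [CommRing R] [IsLocalRing R] [IsNoetherianRing R]

/-- if all elements of the maximal ideal are squares modulo `π`, then `dim R ≤ 1` -/
lemma exists_not_square_mod (hd : 2 ≤ ringKrullDim R) (π : R) (hπ : π ∈ maximalIdeal R) :
    ∃ t : R, ∀ v : R, t - v ^ 2 ∉ Ideal.span {π} := by
  by_contra hcon
  push Not at hcon
  have h1 : maximalIdeal R ≤ Ideal.span {π} ⊔ maximalIdeal R • maximalIdeal R := by
    intro t ht
    obtain ⟨v, hv⟩ := hcon t
    have hπm : Ideal.span {π} ≤ maximalIdeal R := by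
      rw [Ideal.span_singleton_le_iff_mem]; exact hπ
    have hv2 : v ^ 2 ∈ maximalIdeal R := by
      have := (maximalIdeal R).sub_mem ht (hπm hv)
      simpa using this
    have hv1 : v ∈ maximalIdeal R := (maximalIdeal.isMaximal R).isPrime.mem_of_pow_mem 2 hv2
    have : t = (t - v ^ 2) + v ^ 2 := by ring
    rw [this]
    refine Submodule.add_mem_sup hv ?_
    rw [sq]
    exact Submodule.smul_mem_smul hv1 hv1
  have h2 : maximalIdeal R ≤ Ideal.span {π} :=
    Submodule.le_of_le_smul_of_le_jacobson_bot (IsNoetherian.noetherian _)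
      (IsLocalRing.maximalIdeal_le_jacobson _) h1
  have h3 : maximalIdeal R = Ideal.span {π} :=
    le_antisymm h2 (by rw [Ideal.span_singleton_le_iff_mem]; exact hπ)
  have h4 := ringKrullDim_le_spanFinrank_maximalIdeal R
  rw [h3] at h4
  have h5 : (Ideal.span {π}).spanFinrank ≤ 1 :=
    (Submodule.spanFinrank_span_le_ncard_of_finite (Set.toFinite _)).trans (by simp)
  have h6 : (2 : WithBot ℕ∞) ≤ 1 := (hd.trans h4).trans (by exact_mod_cast h5)
  exact absurd h6 (by decide)

end local_ring

/-- `2t` is not a sum of two squares when `t` is not a square modulo `1 + j`. -/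
lemma not_two {R : Type*} [CommRing R] [IsDomain R] [IsIntegrallyClosed R] {j : R}
    (hj : j ^ 2 = -1) (h2 : (2 : R) ≠ 0) {t : R}
    (ht : ∀ v : R, t - v ^ 2 ∉ Ideal.span {1 + j}) (a b : R) : 2 * t ≠ a ^ 2 + b ^ 2 := by
  intro h
  have hpi : (1 + j) ^ 2 = 2 * j := by linear_combination hj
  have hpi0 : (1 + j) ≠ 0 := by
    intro h0
    rw [h0] at hpi
    have : (2 : R) * j = 0 := by rw [← hpi]; ring
    rcases mul_eq_zero.1 this with h3 | h3
    · exact h2 h3
    · rw [h3] at hj
      have : (1 : R) = 0 := by linear_combination hj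
      exact one_ne_zero this
  have h3 : (a + j * b) ^ 2 = (1 + j) ^ 2 * (-j * (t + j * b * (a + j * b))) := by
    rw [hpi]
    linear_combination (-1 : R) * h + (2 * t + 2 * j * a * b + b ^ 2 * (2 * j ^ 2 - 1)) * hj
  have h4 : (1 + j) ∣ a + j * b := by
    rw [← IsIntegrallyClosed.pow_dvd_pow_iff two_ne_zero]
    exact ⟨_, h3⟩
  obtain ⟨v, hv⟩ := h4
  rw [hv] at h3
  have h5 : v ^ 2 = -j * (t + j * b * ((1 + j) * v)) := by
    apply mul_left_cancel₀ (pow_ne_zero 2 hpi0)
    linear_combination h3
  refine ht v (Ideal.mem_span_singleton'.2 ⟨(1 + j * (1 + j)) * v ^ 2 - j * b * v, ?_⟩)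
  linear_combination j * h5 + ((2 + j) * v ^ 2 - t - b * v * j * (1 + j)) * hj

/-- Let `R` be a Noetherian normal local domain of dimension at least two in which `2 ≠ 0` and which
contains a square root of `-1` (for instance such a regular local ring of dimension two), and let `K`
be its field of fractions.  Then `p(K) = 2`; if `2` is a unit of `R`, then `p(R) = 2`; and if `2` is
not a unit of `R`, then `p(R) = 3`.  So `p(R) = p(K)` if and only if `2` is a unit of `R`. -/
theorem result (R : Type*) [CommRing R] [IsDomain R] [IsLocalRing R] [IsNoetherianRing R]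
    [IsIntegrallyClosed R] (hd : 2 ≤ ringKrullDim R) (h2 : (2 : R) ≠ 0)
    (hj : ∃ j : R, j ^ 2 = -1) (K : Type*) [Field K] [Algebra R K] [IsFractionRing R K] :
    IsPythagorasNumber K 2 ∧
      (IsUnit (2 : R) → IsPythagorasNumber R 2) ∧
      (¬ IsUnit (2 : R) → IsPythagorasNumber R 3) := by
  obtain ⟨j, hj⟩ := hj
  obtain ⟨t0, ht0⟩ := exists_not_square_mod hd 0 (Submodule.zero_mem _)
  have ht0' : ∀ v : R, t0 ≠ v ^ 2 := by
    intro v hv
    exact ht0 v (by rw [hv, sub_self]; exact Submodule.zero_mem _)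
  refine ⟨?_, ?_, ?_⟩
  · have hinj := IsFractionRing.injective R K
    have hjK : (algebraMap R K j) ^ 2 = -1 := by
      rw [← map_pow, hj, map_neg, map_one]
    have h2K : (2 : K) ≠ 0 := by
      rw [← map_ofNat (algebraMap R K) 2]
      intro h
      exact h2 ((injective_iff_map_eq_zero _).1 hinj _ h)
    refine isPyth_two (fun x => two hjK (Ne.isUnit h2K) x) ⟨algebraMap R K t0, fun y hy => ?_⟩
    have hint : IsIntegral R (y ^ 2) := by rw [← hy]; exact isIntegral_algebraMap
    obtain ⟨v, rfl⟩ := IsIntegrallyClosed.exists_algebraMap_eq_of_isIntegral_pow two_pos hint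
    rw [← map_pow] at hy
    exact ht0' v (hinj hy)
  · intro hu
    exact isPyth_two (fun x => two hj hu x) ⟨t0, ht0'⟩
  · intro hu
    have hpi : (1 + j) ^ 2 = 2 * j := by linear_combination hj
    have hm : 1 + j ∈ maximalIdeal R := by
      rw [mem_maximalIdeal, mem_nonunits_iff]
      intro h
      have h1 := h.pow 2
      rw [hpi] at h1
      exact hu (isUnit_of_mul_isUnit_left h1)
    obtain ⟨t, ht⟩ := exists_not_square_mod hd (1 + j) hm
    refine ⟨⟨by norm_num, fun m x hx => three hj m x hx⟩, ?_⟩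
    rintro n ⟨hn, h⟩
    by_contra hlt
    have h3 : SumOf R n (2 * t) := by
      refine h 3 _ ?_
      have : 2 * t = (t + 1) ^ 2 + (j * t) ^ 2 + j ^ 2 := by
        rw [mul_pow, hj]; ring
      rw [this]
      exact sumOf_three _ _ _
    obtain ⟨f, hf⟩ := h3
    have h4 : n = 1 ∨ n = 2 := by omega
    rcases h4 with rfl | rfl
    · refine not_two hj h2 ht (f 0) 0 ?_
      rw [hf]; simp
    · refine not_two hj h2 ht (f 0) (f 1) ?_
      rw [hf]; simp [Fin.sum_univ_two]

end Pool.Agent.Results.MP_293fae_al.ContainingI
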